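import Pool.Agent.Work.MP_dc37f8_h15.ManyPrimes

/-!
# MP_dc37f8_co, discrete key inequality: products over primes, final thresholds
-/

open Finset Real

namespace Pool.Agent.Work.MP_dc37f8_h15

/-- the factor of a large prime -/
noncomputable def A (p : ℕ) : ℝ := 1 + 8 / ((p : ℝ) ^ 2 - 1)

theorem one_le_A {p : ℕ} (hp : 2 ≤ p) : 1 ≤ A p := by
  unfold A
  have h : (2 : ℝ) ≤ p := by exact_mod_cast hp
  have : 0 < (p : ℝ) ^ 2 - 1 := by nlinarith
  have : 0 ≤ 8 / ((p : ℝ) ^ 2 - 1) := by positivity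
  linarith

theorem tail_sum (d N : ℕ) (hd : 2 ≤ d) (hN : d ≤ N) (R : Finset ℕ)
    (hR : ∀ n ∈ R, ∃ j, n = N + d * j) :
    ∑ n ∈ R, 8 / ((n : ℝ) ^ 2 - 1) ≤ 8 / ((d : ℝ) * ((N : ℝ) - d / 2)) := by
  classical
  have hd' : (2 : ℝ) ≤ d := by exact_mod_cast hd
  have hN' : (d : ℝ) ≤ N := by exact_mod_cast hN
  obtain ⟨K, hK⟩ : ∃ K : ℕ, R ⊆ (range K).image (fun j => N + d * j) := by
    refine ⟨R.sup id + 1, fun n hn => ?_⟩
    obtain ⟨j, rfl⟩ := hR n hn
    refine mem_image.2 ⟨j, mem_range.2 ?_, rfl⟩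
    have h1 : N + d * j ≤ R.sup id := le_sup (f := id) hn
    nlinarith
  let h : ℕ → ℝ := fun j => 8 / (d * (N + d * j - d / 2))
  have hx : ∀ j : ℕ, (0 : ℝ) ≤ d * j := fun j => by positivity
  have hterm : ∀ j : ℕ, 8 / (((N + d * j : ℕ) : ℝ) ^ 2 - 1) ≤ h j - h (j + 1) := by
    intro j
    simp only [h]
    push_cast
    have hj := hx j
    set x : ℝ := N + d * j with hxdef
    have hxd : (d : ℝ) ≤ x := by linarith
    have e1 : (N : ℝ) + d * (j + 1) - d / 2 = x + d / 2 := by rw [hxdef]; ring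
    rw [e1]
    have p1 : 0 < x - d / 2 := by linarith
    have p2 : 0 < x + d / 2 := by linarith
    have e2 : 8 / (d * (x - d / 2)) - 8 / (d * (x + d / 2)) = 8 / (x ^ 2 - d ^ 2 / 4) := by
      have p3 : x ^ 2 - d ^ 2 / 4 = (x - d / 2) * (x + d / 2) := by ring
      have p4 : (0 : ℝ) < d := by linarith
      rw [p3, div_sub_div _ _ (by positivity) (by positivity),
        div_eq_div_iff (by positivity) (by positivity)]
      ring
    rw [e2]
    have p5 : 0 < x ^ 2 - d ^ 2 / 4 := by nlinarith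
    apply div_le_div_of_nonneg_left (by norm_num) p5
    nlinarith
  calc ∑ n ∈ R, 8 / ((n : ℝ) ^ 2 - 1)
      ≤ ∑ n ∈ (range K).image (fun j => N + d * j), 8 / ((n : ℝ) ^ 2 - 1) := by
        refine sum_le_sum_of_subset_of_nonneg hK fun n hn _ => ?_
        obtain ⟨j, _, rfl⟩ := mem_image.1 hn
        have h3 : (2 : ℝ) ≤ ((N + d * j : ℕ) : ℝ) := by
          have : 2 ≤ N + d * j := by omega
          exact_mod_cast this
        have : 0 < ((N + d * j : ℕ) : ℝ) ^ 2 - 1 := by nlinarith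
        positivity
    _ = ∑ j ∈ range K, 8 / (((N + d * j : ℕ) : ℝ) ^ 2 - 1) := by
        rw [sum_image]
        intro a _ b _ hab
        have : d * a = d * b := by simpa using hab
        exact Nat.eq_of_mul_eq_mul_left (by omega) this
    _ ≤ ∑ j ∈ range K, (h j - h (j + 1)) := sum_le_sum fun j _ => hterm j
    _ = h 0 - h K := sum_range_sub' h K
    _ ≤ h 0 := by
        have : 0 ≤ h K := by
          simp only [h]
          have := hx K
          have : 0 < (N : ℝ) + d * K - d / 2 := by linarith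
          positivity
        linarith
    _ = _ := by simp [h]

theorem prod_one_le {s t : Finset ℕ} (hst : s ⊆ t) (ht : ∀ p ∈ t, 2 ≤ p) :
    ∏ p ∈ s, A p ≤ ∏ p ∈ t, A p := by
  rw [← prod_sdiff hst]
  have h1 : 1 ≤ ∏ p ∈ t \ s, A p := by
    have : ∏ p ∈ t \ s, (1 : ℝ) ≤ ∏ p ∈ t \ s, A p :=
      prod_le_prod (fun _ _ => zero_le_one) fun p hp => one_le_A (ht p (mem_sdiff.1 hp).1)
    simpa using this
  have h2 : 0 ≤ ∏ p ∈ s, A p := prod_nonneg fun p hp => by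
    linarith [one_le_A (ht p (hst hp))]
  nlinarith

theorem prod_tail (d N : ℕ) (hd : 2 ≤ d) (hN : d ≤ N) (T : Finset ℕ) (hT : ∀ p ∈ T, 2 ≤ p)
    (c : ℝ) (hc : ∏ p ∈ T, A p ≤ c) (x : ℝ) (hx : 8 / ((d : ℝ) * ((N : ℝ) - d / 2)) ≤ x) (hx1 : x < 1)
    (S : Finset ℕ) (hS : ∀ p ∈ S, p ∈ T ∨ ∃ j, p = N + d * j) :
    ∏ p ∈ S, A p ≤ c * (1 - x)⁻¹ := by
  classical
  have h1 : ∏ p ∈ S ∩ T, A p ≤ c := (prod_one_le inter_subset_right hT).trans hc
  have hR : ∀ p ∈ S \ T, ∃ j, p = N + d * j := fun p hp =>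
    (hS p (mem_sdiff.1 hp).1).resolve_left (mem_sdiff.1 hp).2
  have h2 : ∏ p ∈ S \ T, A p ≤ (1 - x)⁻¹ := by
    calc ∏ p ∈ S \ T, A p ≤ ∏ p ∈ S \ T, exp (8 / ((p : ℝ) ^ 2 - 1)) := by
          refine prod_le_prod (fun p hp => ?_) fun p hp => ?_
          · obtain ⟨j, rfl⟩ := hR p hp
            linarith [one_le_A (p := N + d * j) (by omega)]
          · unfold A
            rw [add_comm]
            exact add_one_le_exp _
      _ = exp (∑ p ∈ S \ T, 8 / ((p : ℝ) ^ 2 - 1)) := (exp_sum _ _).symm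
      _ ≤ exp x := exp_le_exp.2 ((tail_sum d N hd hN _ hR).trans hx)
      _ ≤ (1 - x)⁻¹ := by
          have h3 : 1 - x ≤ exp (-x) := one_sub_le_exp_neg x
          have h4 : 0 < 1 - x := by linarith
          rw [exp_neg] at h3
          exact (le_inv_comm₀ h4 (exp_pos x)).1 h3
  have h3 : 0 ≤ ∏ p ∈ S ∩ T, A p := prod_nonneg fun p hp => by
    linarith [one_le_A (hT p (mem_inter.1 hp).2)]
  have h4 : 0 ≤ ∏ p ∈ S \ T, A p := prod_nonneg fun p hp => by
    obtain ⟨j, rfl⟩ := hR p hp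
    linarith [one_le_A (p := N + d * j) (by omega)]
  have h5 : ∏ p ∈ S, A p = (∏ p ∈ S ∩ T, A p) * ∏ p ∈ S \ T, A p := by
    rw [← prod_union]
    · congr 1
      ext p
      simp only [mem_union, mem_inter, mem_sdiff]
      tauto
    · rw [disjoint_left]
      intro p h h'
      exact (mem_sdiff.1 h').2 (mem_inter.1 h).2
  rw [h5]
  exact mul_le_mul h1 h2 h4 (h3.trans h1)

def T11 : Finset ℕ := {11, 13, 17, 19, 23, 29, 31, 37, 41, 43, 47, 53, 59, 61, 67, 71, 73, 79, 83,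
  89, 97}

/-- primes `≡ 1 mod 3`, from 13 -/
def T6 : Finset ℕ := {13, 19, 31, 37, 43, 61, 67, 73, 79, 97}

theorem prod_T11 : ∏ p ∈ T11, A p ≤ 12564 / 10000 := by
  unfold T11 A
  norm_num [prod_insert]

theorem prod_T6 : ∏ p ∈ T6, A p ≤ 10993 / 10000 := by
  unfold T6 A
  norm_num [prod_insert]

theorem prime_T11 {p : ℕ} (hp : p.Prime) (h11 : 11 ≤ p) : p ∈ T11 ∨ ∃ j, p = 101 + 2 * j := by
  by_cases h : p < 101
  · left
    unfold T11
    interval_cases p <;> first | decide | (exfalso; revert hp; norm_num)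
  · right
    have h2 : p % 2 = 1 := hp.eq_two_or_odd.resolve_left (by omega)
    exact ⟨(p - 101) / 2, by omega⟩

theorem prime_T6 {p : ℕ} (hp : p.Prime) (h1 : p % 3 = 1) (h7 : p ≠ 7) :
    p ∈ T6 ∨ ∃ j, p = 103 + 6 * j := by
  by_cases h : p < 103
  · left
    unfold T6
    interval_cases p <;> first | decide | (exfalso; omega) | (exfalso; revert hp; norm_num)
  · right
    have h2 : p % 2 = 1 := hp.eq_two_or_odd.resolve_left (by omega)
    exact ⟨(p - 103) / 6, by omega⟩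

/-- primes `≥ 11` -/
theorem prod_ge11 (S : Finset ℕ) (hS : ∀ p ∈ S, p.Prime ∧ 11 ≤ p) : ∏ p ∈ S, A p ≤ 131 / 100 := by
  refine (prod_tail 2 101 le_rfl (by norm_num) T11 (by decide) _ prod_T11 (1 / 25) (by norm_num)
    (by norm_num) S fun p hp => prime_T11 (hS p hp).1 (hS p hp).2).trans (by norm_num)

/-- primes `≡ 1 mod 3`, not 7 -/
theorem prod_mod3 (S : Finset ℕ) (hS : ∀ p ∈ S, p.Prime ∧ p % 3 = 1 ∧ p ≠ 7) :
    ∏ p ∈ S, A p ≤ 1115 / 1000 := by
  refine (prod_tail 6 103 (by norm_num) (by norm_num) T6 (by decide) _ prod_T6 (1 / 75)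
    (by norm_num) (by norm_num) S fun p hp =>
      prime_T6 (hS p hp).1 (hS p hp).2.1 (hS p hp).2.2).trans (by norm_num)

/-- the constant of an odd prime -/
noncomputable def Cst (p : ℕ) : ℝ := if p = 3 then 1143 / 625 else if p = 5 then 13093 / 10000 else A p

theorem bd_cst {p : ℕ} (hp : p.Prime) (h2 : p ≠ 2) : Bd (log p) (Cst p) := by
  unfold Cst
  split_ifs with h3 h5
  · rw [h3]
    exact_mod_cast bd3
  · rw [h5]
    exact_mod_cast bd5
  · have h7 : 7 ≤ p := by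
      have := hp.two_le
      by_contra hlt
      have hlt' : p < 7 := by omega
      interval_cases p
      · exact h2 rfl
      · exact h3 rfl
      · revert hp; norm_num
      · exact h5 rfl
      · revert hp; norm_num
    have h7' : (7 : ℝ) ≤ p := by exact_mod_cast h7
    exact bd_large h7'

theorem cst_ge_one {p : ℕ} (hp : p.Prime) : 1 ≤ Cst p := by
  unfold Cst
  split_ifs
  · norm_num
  · norm_num
  · exact one_le_A hp.two_le

theorem cst_three : Cst 3 = 1143 / 625 := by simp [Cst]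

theorem cst_five : Cst 5 = 13093 / 10000 := by simp [Cst]

theorem cst_seven : Cst 7 = 7 / 6 := by
  simp only [Cst, A]
  norm_num

theorem prod_cst_erase {S : Finset ℕ} (hS : ∀ p ∈ S, p.Prime) (q : ℕ) {a : ℝ}
    (ha : Cst q ≤ a ∧ 1 ≤ a) {b : ℝ} (h : ∏ p ∈ S.erase q, Cst p ≤ b) : ∏ p ∈ S, Cst p ≤ a * b := by
  have h0 : 0 ≤ ∏ p ∈ S.erase q, Cst p := prod_nonneg fun p hp => by
    linarith [cst_ge_one (hS p (mem_of_mem_erase hp))]
  by_cases hq : q ∈ S
  · rw [← mul_prod_erase S _ hq]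
    exact mul_le_mul ha.1 h h0 (by linarith [ha.2])
  · rw [erase_eq_of_notMem hq] at h h0
    nlinarith [ha.2]

theorem prod_cst11 {S : Finset ℕ} (hS : ∀ p ∈ S, p.Prime) (h2 : 2 ∉ S) (h3 : 3 ∉ S) (h5 : 5 ∉ S)
    (h7 : 7 ∉ S) : ∏ p ∈ S, Cst p ≤ 131 / 100 := by
  have h11 : ∀ p ∈ S, p.Prime ∧ 11 ≤ p := by
    intro p hp
    refine ⟨hS p hp, ?_⟩
    by_contra hlt
    have hlt' : p < 11 := by omega
    have hpr := hS p hp
    interval_cases p <;>
      first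
      | exact h2 hp
      | exact h3 hp
      | exact h5 hp
      | exact h7 hp
      | (revert hpr; norm_num)
  refine le_trans (le_of_eq (prod_congr rfl fun p hp => ?_)) (prod_ge11 S h11)
  have := (h11 p hp).2
  unfold Cst
  rw [if_neg (by omega), if_neg (by omega)]

theorem prod_cst7 {S : Finset ℕ} (hS : ∀ p ∈ S, p.Prime) (h2 : 2 ∉ S) (h3 : 3 ∉ S) (h5 : 5 ∉ S) :
    ∏ p ∈ S, Cst p ≤ 7 / 6 * (131 / 100) :=
  prod_cst_erase hS 7 ⟨cst_seven.le, by norm_num⟩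
    (prod_cst11 (fun p hp => hS p (mem_of_mem_erase hp)) (fun h => h2 (mem_of_mem_erase h))
      (fun h => h3 (mem_of_mem_erase h)) (fun h => h5 (mem_of_mem_erase h)) (notMem_erase 7 S))

/-- odd primes, 3 not in `S` -/
theorem prod_cst5 {S : Finset ℕ} (hS : ∀ p ∈ S, p.Prime) (h2 : 2 ∉ S) (h3 : 3 ∉ S) :
    ∏ p ∈ S, Cst p ≤ 13093 / 10000 * (7 / 6 * (131 / 100)) :=
  prod_cst_erase hS 5 ⟨cst_five.le, by norm_num⟩
    (prod_cst7 (fun p hp => hS p (mem_of_mem_erase hp)) (fun h => h2 (mem_of_mem_erase h))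
      (fun h => h3 (mem_of_mem_erase h)) (notMem_erase 5 S))

/-- odd primes, 5 not in `S` -/
theorem prod_cst3 {S : Finset ℕ} (hS : ∀ p ∈ S, p.Prime) (h2 : 2 ∉ S) (h5 : 5 ∉ S) :
    ∏ p ∈ S, Cst p ≤ 1143 / 625 * (7 / 6 * (131 / 100)) :=
  prod_cst_erase hS 3 ⟨cst_three.le, by norm_num⟩
    (prod_cst7 (fun p hp => hS p (mem_of_mem_erase hp)) (fun h => h2 (mem_of_mem_erase h))
      (notMem_erase 3 S) (fun h => h5 (mem_of_mem_erase h)))

/-- all odd primes -/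
theorem prod_cst_odd {S : Finset ℕ} (hS : ∀ p ∈ S, p.Prime) (h2 : 2 ∉ S) :
    ∏ p ∈ S, Cst p ≤ 1143 / 625 * (13093 / 10000 * (7 / 6 * (131 / 100))) :=
  prod_cst_erase hS 3 ⟨cst_three.le, by norm_num⟩
    (prod_cst5 (fun p hp => hS p (mem_of_mem_erase hp)) (fun h => h2 (mem_of_mem_erase h))
      (notMem_erase 3 S))

variable {ι : Type*} (S : Finset ℕ) (J : Finset ι) (e : ι → ℕ → ℤ)

/-- the constant in the hexagonal case -/
noncomputable def Cst6 (p : ℕ) : ℝ := if p = 7 then 11603 / 10000 else A p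

/-- fields with six roots of unity -/
theorem fin6 (hS : ∀ p ∈ S, p.Prime ∧ p % 3 = 1)
    (hw : ∀ T ⊆ J, (∀ r ∈ T, ∀ r' ∈ T, ∀ p ∈ S, e r p = e r' p) → T.card ≤ 6) (f : ℕ → ℝ) :
    ∑ r ∈ J, ∏ p ∈ S, ((cosh (e r p * log p - f p)) ^ 2)⁻¹ ≤ 777 / 100 := by
  have hge7 : ∀ p ∈ S, 7 ≤ p := by
    intro p hp
    have hpr := (hS p hp).1
    have h3 := (hS p hp).2
    by_contra hlt
    have hlt' : p < 7 := by omega
    interval_cases p <;> first | omega | (revert hpr; norm_num)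
  have h1 := many_primes S J e 6 hw Cst6 (fun p hp => by
    unfold Cst6
    split_ifs with h7
    · rw [h7]
      exact_mod_cast bd7
    · have h7' : (7 : ℝ) ≤ p := by exact_mod_cast hge7 p hp
      exact bd_large h7') f
  have h2 : ∏ p ∈ S.erase 7, Cst6 p ≤ 1115 / 1000 := by
    refine le_trans (le_of_eq (prod_congr rfl fun p hp => ?_)) (prod_mod3 (S.erase 7)
      fun p hp => ⟨(hS p (mem_of_mem_erase hp)).1, (hS p (mem_of_mem_erase hp)).2,
        ne_of_mem_erase hp⟩)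
    unfold Cst6
    rw [if_neg (ne_of_mem_erase hp)]
  have h3 : 0 ≤ ∏ p ∈ S.erase 7, Cst6 p := prod_nonneg fun p hp => by
    unfold Cst6
    rw [if_neg (ne_of_mem_erase hp)]
    linarith [one_le_A (hS p (mem_of_mem_erase hp)).1.two_le]
  have h4 : ∏ p ∈ S, Cst6 p ≤ 11603 / 10000 * (1115 / 1000) := by
    by_cases h7 : 7 ∈ S
    · rw [← mul_prod_erase S _ h7]
      have : Cst6 7 = 11603 / 10000 := by simp [Cst6]
      rw [this]
      linarith
    · rw [erase_eq_of_notMem h7] at h2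
      linarith
  push_cast at h1
  linarith

/-- fields with four roots of unity -/
theorem fin4 (hS : ∀ p ∈ S, p.Prime ∧ p % 4 = 1)
    (hw : ∀ T ⊆ J, (∀ r ∈ T, ∀ r' ∈ T, ∀ p ∈ S, e r p = e r' p) → T.card ≤ 4) (f : ℕ → ℝ) :
    ∑ r ∈ J, ∏ p ∈ S, ((cosh (e r p * log p - f p)) ^ 2)⁻¹ ≤ 777 / 100 := by
  have h1 := many_primes S J e 4 hw Cst (fun p hp => bd_cst (hS p hp).1 (fun h => by
    have := (hS p hp).2
    omega)) f
  have hn : ∀ q : ℕ, q % 4 ≠ 1 → q ∉ S := fun q hq h => hq (hS q h).2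
  have h2 : ∏ p ∈ S, Cst p ≤ 13093 / 10000 * (131 / 100) :=
    prod_cst_erase (fun p hp => (hS p hp).1) 5 ⟨cst_five.le, by norm_num⟩
      (prod_cst11 (fun p hp => (hS p (mem_of_mem_erase hp)).1)
        (fun h => hn 2 (by norm_num) (mem_of_mem_erase h))
        (fun h => hn 3 (by norm_num) (mem_of_mem_erase h)) (notMem_erase 5 S)
        (fun h => hn 7 (by norm_num) (mem_of_mem_erase h)))
  push_cast at h1
  linarith

theorem log_pow_two (k : ℕ) : ((k : ℕ) : ℝ) * log 2 = log (2 ^ k : ℝ) := by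
  rw [log_pow]

theorem bd_two4 : Bd ((4 : ℕ) * log 2) (263 / 255) := by
  rw [log_pow_two, show (2 : ℝ) ^ 4 = 16 by norm_num]
  exact (bd_large (b := 16) (by norm_num)).mono (by norm_num)

theorem bd_two3 : Bd ((3 : ℕ) * log 2) (71 / 63) := by
  rw [log_pow_two, show (2 : ℝ) ^ 3 = 8 by norm_num]
  exact (bd_large (b := 8) (by norm_num)).mono (by norm_num)

theorem bd_two2 : Bd ((2 : ℕ) * log 2) (148 / 100) := by
  rw [log_pow_two, show (2 : ℝ) ^ 2 = 4 by norm_num]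
  exact bd4.mono (by norm_num)

theorem bd_two1 : Bd ((1 : ℕ) * log 2) (29 / 10) := by
  rw [Nat.cast_one, one_mul]
  exact bd2

section two

variable (hS : ∀ p ∈ S, p.Prime)
  (hw : ∀ T ⊆ J, (∀ r ∈ T, ∀ r' ∈ T, ∀ p ∈ S, e r p = e r' p) → T.card ≤ 2)
include hS hw

/-- two roots of unity, gaps at least 4 at the prime 2 -/
theorem fin2_gap4
    (hgap : 2 ∈ S → ∀ r ∈ J, ∀ r' ∈ J, (∀ p ∈ S, p ≠ 2 → e r p = e r' p) → e r 2 ≠ e r' 2 →
      (4 : ℤ) ≤ |e r 2 - e r' 2|) (f : ℕ → ℝ) :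
    ∑ r ∈ J, ∏ p ∈ S, ((cosh (e r p * log p - f p)) ^ 2)⁻¹ ≤ 777 / 100 := by
  refine (many_primes_gap S J e 2 hw 4 (by norm_num) hgap (263 / 255) (by norm_num)
    bd_two4 Cst (fun p hp h2 => bd_cst (hS p hp) h2) f).trans ?_
  have h2 := prod_cst_odd (S := S.erase 2) (fun p hp => hS p (mem_of_mem_erase hp))
    (notMem_erase 2 S)
  push_cast
  linarith

/-- two roots of unity, gaps at least 3 at the prime 2, and 3 or 5 not in `S` -/
theorem fin2_gap3 (h35 : 3 ∉ S ∨ 5 ∉ S)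
    (hgap : 2 ∈ S → ∀ r ∈ J, ∀ r' ∈ J, (∀ p ∈ S, p ≠ 2 → e r p = e r' p) → e r 2 ≠ e r' 2 →
      (3 : ℤ) ≤ |e r 2 - e r' 2|) (f : ℕ → ℝ) :
    ∑ r ∈ J, ∏ p ∈ S, ((cosh (e r p * log p - f p)) ^ 2)⁻¹ ≤ 777 / 100 := by
  refine (many_primes_gap S J e 2 hw 3 (by norm_num) hgap (71 / 63) (by norm_num)
    bd_two3 Cst (fun p hp h2 => bd_cst (hS p hp) h2) f).trans ?_
  have h2 : ∏ p ∈ S.erase 2, Cst p ≤ 28 / 10 := by
    rcases h35 with h | h
    · exact (prod_cst5 (S := S.erase 2) (fun p hp => hS p (mem_of_mem_erase hp))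
        (notMem_erase 2 S) (fun h' => h (mem_of_mem_erase h'))).trans (by norm_num)
    · exact (prod_cst3 (S := S.erase 2) (fun p hp => hS p (mem_of_mem_erase hp))
        (notMem_erase 2 S) (fun h' => h (mem_of_mem_erase h'))).trans (by norm_num)
  push_cast
  linarith

/-- two roots of unity, gaps at least 2 at the prime 2, and 3 not in `S` -/
theorem fin2_gap2 (h3 : 3 ∉ S)
    (hgap : 2 ∈ S → ∀ r ∈ J, ∀ r' ∈ J, (∀ p ∈ S, p ≠ 2 → e r p = e r' p) → e r 2 ≠ e r' 2 →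
      (2 : ℤ) ≤ |e r 2 - e r' 2|) (f : ℕ → ℝ) :
    ∑ r ∈ J, ∏ p ∈ S, ((cosh (e r p * log p - f p)) ^ 2)⁻¹ ≤ 777 / 100 := by
  refine (many_primes_gap S J e 2 hw 2 (by norm_num) hgap (148 / 100) (by norm_num)
    bd_two2 Cst (fun p hp h2 => bd_cst (hS p hp) h2) f).trans ?_
  have h2 := prod_cst5 (S := S.erase 2) (fun p hp => hS p (mem_of_mem_erase hp))
    (notMem_erase 2 S) (fun h' => h3 (mem_of_mem_erase h'))
  push_cast
  linarith

/-- two roots of unity, no gap condition, 3, 5, 7 not in `S` -/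
theorem fin2_gap1 (h3 : 3 ∉ S) (h5 : 5 ∉ S) (h7 : 7 ∉ S) (f : ℕ → ℝ) :
    ∑ r ∈ J, ∏ p ∈ S, ((cosh (e r p * log p - f p)) ^ 2)⁻¹ ≤ 777 / 100 := by
  refine (many_primes_gap S J e 2 hw 1 le_rfl
    (fun _ r _ r' _ _ hne => by
      have : e r 2 - e r' 2 ≠ 0 := sub_ne_zero.2 hne
      exact_mod_cast Int.one_le_abs this) (29 / 10) (by norm_num)
    bd_two1 Cst (fun p hp h2 => bd_cst (hS p hp) h2) f).trans ?_
  have h2 := prod_cst11 (S := S.erase 2) (fun p hp => hS p (mem_of_mem_erase hp))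
    (notMem_erase 2 S) (fun h' => h3 (mem_of_mem_erase h')) (fun h' => h5 (mem_of_mem_erase h'))
    (fun h' => h7 (mem_of_mem_erase h'))
  push_cast
  linarith

end two

end Pool.Agent.Work.MP_dc37f8_h15
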