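import Pool.Agent.Work.MP_dc37f8_h15.OnePrime

/-!
# MP_dc37f8_co, discrete key inequality: the constants for 2, 3, 4, 5 and for b ≥ 7
-/

open Finset Real

namespace Pool.Agent.Work.MP_dc37f8_h15

theorem bd3 : Bd (log 3) (1143/625) := by
  refine bd_master (by norm_num) 2 _ fun w hw1 hw2 => ?_
  obtain ⟨t, rfl⟩ : ∃ t, w = 2 + t := ⟨w - 2, by ring⟩
  have ht : 0 ≤ t := by linarith
  have ht' : t ≤ 4 / 3 := by
    have h : (2 : ℝ) + t ≤ 3 + (3)⁻¹ := hw2
    norm_num at h ⊢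
    linarith
  have e : 4 / (2 + t + 2) + ∑ k ∈ range 2, P ((3 : ℝ) ^ (2 * (k + 1))) (2 + t) +
      4 * (2 + t) * ((3 : ℝ) ^ (2 * 2))⁻¹ * ((3 : ℝ) ^ 2 - 1)⁻¹ =
      4 / (4 + t) + 36 * (82 * t + 200) / (100 + 9 * t) ^ 2 + 324 * (6562 * t + 13448) / (6724 + 81 * t) ^ 2 + 1 / 162 * (2 + t) := by
    simp only [sum_range_succ, sum_range_zero, P]
    norm_num
    ring_nf
  rw [e]
  have key : (1143/625 : ℝ) - (4 / (4 + t) + 36 * (82 * t + 200) / (100 + 9 * t) ^ 2 + 324 * (6562 * t + 13448) / (6724 + 81 * t) ^ 2 + 1 / 162 * (2 + t)) =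
      ((15218832640000) + (6145528762675200) * t ^ 1 + (-1930073402799616) * t ^ 2 + (176231880885888) * t ^ 3 + (-4627947059928) * t ^ 4 + (33885570456) * t ^ 5 + (-332150625) * t ^ 6) / (101250 * ((4 + t) * (100 + 9 * t) ^ 2 * (6724 + 81 * t) ^ 2)) := by
    field_simp
    ring
  have hD : 0 < 101250 * ((4 + t) * (100 + 9 * t) ^ 2 * (6724 + 81 * t) ^ 2) := by positivity
  have hN : 0 ≤ (15218832640000) + (6145528762675200) * t ^ 1 + (-1930073402799616) * t ^ 2 + (176231880885888) * t ^ 3 + (-4627947059928) * t ^ 4 + (33885570456) * t ^ 5 + (-332150625) * t ^ 6 := by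
    have g0 : 0 ≤ 15218832640000 * t ^ 0 := by positivity
    have g1 : 0 ≤ t ^ 1 * (6145528762675200 + (-1930073402799616) * t) :=
      mul_nonneg (by positivity) (by linarith)
    have g2 : 0 ≤ t ^ 3 * (176231880885888 + (-4627947059928) * t) :=
      mul_nonneg (by positivity) (by linarith)
    have g3 : 0 ≤ t ^ 5 * (33885570456 + (-332150625) * t) :=
      mul_nonneg (by positivity) (by linarith)
    linarith [g0, g1, g2, g3]
  have := div_nonneg hN hD.le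
  rw [← key] at this
  linarith

theorem bd5 : Bd (log 5) (13093/10000) := by
  refine bd_master (by norm_num) 1 _ fun w hw1 hw2 => ?_
  obtain ⟨t, rfl⟩ : ∃ t, w = 2 + t := ⟨w - 2, by ring⟩
  have ht : 0 ≤ t := by linarith
  have ht' : t ≤ 16 / 5 := by
    have h : (2 : ℝ) + t ≤ 5 + (5)⁻¹ := hw2
    norm_num at h ⊢
    linarith
  have e : 4 / (2 + t + 2) + ∑ k ∈ range 1, P ((5 : ℝ) ^ (2 * (k + 1))) (2 + t) +
      4 * (2 + t) * ((5 : ℝ) ^ (2 * 1))⁻¹ * ((5 : ℝ) ^ 2 - 1)⁻¹ =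
      4 / (4 + t) + 100 * (626 * t + 1352) / (676 + 25 * t) ^ 2 + 1 / 150 * (2 + t) := by
    simp only [sum_range_succ, sum_range_zero, P]
    norm_num
    ring_nf
  rw [e]
  have key : (13093/10000 : ℝ) - (4 / (4 + t) + 100 * (626 * t + 1352) / (676 + 25 * t) ^ 2 + 1 / 150 * (2 + t)) =
      ((5959616) + (7033629904) * t ^ 1 + (-660127500) * t ^ 2 + (17039375) * t ^ 3 + (-125000) * t ^ 4) / (30000 * ((4 + t) * (676 + 25 * t) ^ 2)) := by
    field_simp
    ring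
  have hD : 0 < 30000 * ((4 + t) * (676 + 25 * t) ^ 2) := by positivity
  have hN : 0 ≤ (5959616) + (7033629904) * t ^ 1 + (-660127500) * t ^ 2 + (17039375) * t ^ 3 + (-125000) * t ^ 4 := by
    have g0 : 0 ≤ 5959616 * t ^ 0 := by positivity
    have g1 : 0 ≤ t ^ 1 * (7033629904 + (-660127500) * t) :=
      mul_nonneg (by positivity) (by linarith)
    have g2 : 0 ≤ t ^ 3 * (17039375 + (-125000) * t) :=
      mul_nonneg (by positivity) (by linarith)
    linarith [g0, g1, g2]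
  have := div_nonneg hN hD.le
  rw [← key] at this
  linarith

theorem bd2 : Bd (log 2) (29/10) := by
  refine bd_master (by norm_num) 3 _ fun w hw1 hw2 => ?_
  obtain ⟨t, rfl⟩ : ∃ t, w = 2 + t := ⟨w - 2, by ring⟩
  have ht : 0 ≤ t := by linarith
  have ht' : t ≤ 1 / 2 := by
    have h : (2 : ℝ) + t ≤ 2 + (2)⁻¹ := hw2
    norm_num at h ⊢
    linarith
  have e : 4 / (2 + t + 2) + ∑ k ∈ range 3, P ((2 : ℝ) ^ (2 * (k + 1))) (2 + t) +
      4 * (2 + t) * ((2 : ℝ) ^ (2 * 3))⁻¹ * ((2 : ℝ) ^ 2 - 1)⁻¹ =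
      4 / (4 + t) + 16 * (17 * t + 50) / (25 + 4 * t) ^ 2 + 64 * (257 * t + 578) / (289 + 16 * t) ^ 2 + 256 * (4097 * t + 8450) / (4225 + 64 * t) ^ 2 + 1 / 48 * (2 + t) := by
    simp only [sum_range_succ, sum_range_zero, P]
    norm_num
    ring_nf
  rw [e]
  have key : (29/10 : ℝ) - (4 / (4 + t) + 16 * (17 * t + 50) / (25 + 4 * t) ^ 2 + 64 * (257 * t + 578) / (289 + 16 * t) ^ 2 + 256 * (4097 * t + 8450) / (4225 + 64 * t) ^ 2 + 1 / 48 * (2 + t)) =
      ((12741243246875000) + (9588015980456250) * t ^ 1 + (942509858846875) * t ^ 2 + (533569128555160) * t ^ 3 + (-62217724335696) * t ^ 4 + (302290093568) * t ^ 5 + (-282339463168) * t ^ 6 + (-3980918784) * t ^ 7 + (-83886080) * t ^ 8) / (240 * ((4 + t) * (25 + 4 * t) ^ 2 * (289 + 16 * t) ^ 2 * (4225 + 64 * t) ^ 2)) := by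
    field_simp
    ring
  have hD : 0 < 240 * ((4 + t) * (25 + 4 * t) ^ 2 * (289 + 16 * t) ^ 2 * (4225 + 64 * t) ^ 2) := by positivity
  have hN : 0 ≤ (12741243246875000) + (9588015980456250) * t ^ 1 + (942509858846875) * t ^ 2 + (533569128555160) * t ^ 3 + (-62217724335696) * t ^ 4 + (302290093568) * t ^ 5 + (-282339463168) * t ^ 6 + (-3980918784) * t ^ 7 + (-83886080) * t ^ 8 := by
    have g0 : 0 ≤ 12741243246875000 * t ^ 0 := by positivity
    have g1 : 0 ≤ 9588015980456250 * t ^ 1 := by positivity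
    have g2 : 0 ≤ 942509858846875 * t ^ 2 := by positivity
    have g3 : 0 ≤ t ^ 3 * (533569128555160 + (-62217724335696) * t) :=
      mul_nonneg (by positivity) (by linarith)
    have g4 : 0 ≤ t ^ 5 * (302290093568 + (-282339463168) * t ^ 1 + (-3980918784) * t ^ 2 + (-83886080) * t ^ 3) := by
      have t2 : t ^ 2 ≤ t := by nlinarith
      have t3 : t ^ 3 ≤ t := by nlinarith
      exact mul_nonneg (by positivity) (by linarith)
    linarith [g0, g1, g2, g3, g4]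
  have := div_nonneg hN hD.le
  rw [← key] at this
  linarith

theorem bd4 : Bd (log 4) (37/25) := by
  refine bd_master (by norm_num) 1 _ fun w hw1 hw2 => ?_
  obtain ⟨t, rfl⟩ : ∃ t, w = 2 + t := ⟨w - 2, by ring⟩
  have ht : 0 ≤ t := by linarith
  have ht' : t ≤ 9 / 4 := by
    have h : (2 : ℝ) + t ≤ 4 + (4)⁻¹ := hw2
    norm_num at h ⊢
    linarith
  have e : 4 / (2 + t + 2) + ∑ k ∈ range 1, P ((4 : ℝ) ^ (2 * (k + 1))) (2 + t) +
      4 * (2 + t) * ((4 : ℝ) ^ (2 * 1))⁻¹ * ((4 : ℝ) ^ 2 - 1)⁻¹ =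
      4 / (4 + t) + 64 * (257 * t + 578) / (289 + 16 * t) ^ 2 + 1 / 60 * (2 + t) := by
    simp only [sum_range_succ, sum_range_zero, P]
    norm_num
    ring_nf
  rw [e]
  have key : (37/25 : ℝ) - (4 / (4 + t) + 64 * (257 * t + 578) / (289 + 16 * t) ^ 2 + 1 / 60 * (2 + t)) =
      ((376856) + (8699422) * t ^ 1 + (-1386117) * t ^ 2 + (59744) * t ^ 3 + (-1280) * t ^ 4) / (300 * ((4 + t) * (289 + 16 * t) ^ 2)) := by
    field_simp
    ring
  have hD : 0 < 300 * ((4 + t) * (289 + 16 * t) ^ 2) := by positivity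
  have hN : 0 ≤ (376856) + (8699422) * t ^ 1 + (-1386117) * t ^ 2 + (59744) * t ^ 3 + (-1280) * t ^ 4 := by
    have g0 : 0 ≤ 376856 * t ^ 0 := by positivity
    have g1 : 0 ≤ t ^ 1 * (8699422 + (-1386117) * t) :=
      mul_nonneg (by positivity) (by linarith)
    have g2 : 0 ≤ t ^ 3 * (59744 + (-1280) * t) :=
      mul_nonneg (by positivity) (by linarith)
    linarith [g0, g1, g2]
  have := div_nonneg hN hD.le
  rw [← key] at this
  linarith

theorem bd7 : Bd (log 7) (11603/10000) := by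
  refine bd_master (by norm_num) 1 _ fun w hw1 hw2 => ?_
  obtain ⟨t, rfl⟩ : ∃ t, w = 2 + t := ⟨w - 2, by ring⟩
  have ht : 0 ≤ t := by linarith
  have ht' : t ≤ 36 / 7 := by
    have h : (2 : ℝ) + t ≤ 7 + (7)⁻¹ := hw2
    norm_num at h ⊢
    linarith
  have e : 4 / (2 + t + 2) + ∑ k ∈ range 1, P ((7 : ℝ) ^ (2 * (k + 1))) (2 + t) +
      4 * (2 + t) * ((7 : ℝ) ^ (2 * 1))⁻¹ * ((7 : ℝ) ^ 2 - 1)⁻¹ =
      4 / (4 + t) + 196 * (2402 * t + 5000) / (2500 + 49 * t) ^ 2 + 1 / 588 * (2 + t) := by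
    simp only [sum_range_succ, sum_range_zero, P]
    norm_num
    ring_nf
  rw [e]
  have key : (11603/10000 : ℝ) - (4 / (4 + t) + 196 * (2402 * t + 5000) / (2500 + 49 * t) ^ 2 + 1 / 588 * (2 + t)) =
      ((3625000000) + (6583677470000) * t ^ 1 + (-291267118836) * t ^ 2 + (3446729041) * t ^ 3 + (-6002500) * t ^ 4) / (1470000 * ((4 + t) * (2500 + 49 * t) ^ 2)) := by
    field_simp
    ring
  have hD : 0 < 1470000 * ((4 + t) * (2500 + 49 * t) ^ 2) := by positivity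
  have hN : 0 ≤ (3625000000) + (6583677470000) * t ^ 1 + (-291267118836) * t ^ 2 + (3446729041) * t ^ 3 + (-6002500) * t ^ 4 := by
    have g0 : 0 ≤ 3625000000 * t ^ 0 := by positivity
    have g1 : 0 ≤ t ^ 1 * (6583677470000 + (-291267118836) * t) :=
      mul_nonneg (by positivity) (by linarith)
    have g2 : 0 ≤ t ^ 3 * (3446729041 + (-6002500) * t) :=
      mul_nonneg (by positivity) (by linarith)
    linarith [g0, g1, g2]
  have := div_nonneg hN hD.le
  rw [← key] at this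
  linarith

/-- all bases `b ≥ 7` -/
theorem bd_large {b : ℝ} (hb : 7 ≤ b) : Bd (log b) (1 + 8 / (b ^ 2 - 1)) := by
  refine bd_master (by linarith) 0 _ fun w hw1 hw2 => ?_
  have h1 : 0 < b ^ 2 - 1 := by nlinarith
  have hb0 : 0 < b := by linarith
  have h2 : b⁻¹ ≤ 7⁻¹ := inv_anti₀ (by norm_num) hb
  have h3 : 4 * (w + 2) ≤ b ^ 2 - 1 := by
    norm_num at h2
    nlinarith
  simp only [range_zero, sum_empty, add_zero, Nat.mul_zero, pow_zero, inv_one, mul_one]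
  have h4 : 1 + 8 / (b ^ 2 - 1) - (4 / (w + 2) + 4 * w * (b ^ 2 - 1)⁻¹) =
      (w - 2) * ((b ^ 2 - 1) - 4 * (w + 2)) / ((w + 2) * (b ^ 2 - 1)) := by
    have : w + 2 ≠ 0 := by linarith
    field_simp
    ring
  have h5 : 0 ≤ (w - 2) * ((b ^ 2 - 1) - 4 * (w + 2)) / ((w + 2) * (b ^ 2 - 1)) :=
    div_nonneg (mul_nonneg (by linarith) (by linarith)) (mul_nonneg (by linarith) h1.le)
  linarith

end Pool.Agent.Work.MP_dc37f8_h15
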