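import Pool.Agent.Work.MP_dc37f8_h15.Consts

/-!
# MP_dc37f8_co, discrete key inequality: many primes
-/

open Finset Real

namespace Pool.Agent.Work.MP_dc37f8_h15

theorem Bd.nonneg {L C : ℝ} (h : Bd L C) : 0 ≤ C := by
  simpa using h 0 ∅

/-- general form: a weight `g` whose sum over every set of elements of `J` with equal exponents
on `S` is at most `B`. -/
theorem many_aux {ι : Type*} (g : ι → ℝ) (hg : ∀ r, 0 ≤ g r) (B : ℝ)
    (e : ι → ℕ → ℤ) (C : ℕ → ℝ) (f : ℕ → ℝ) (S : Finset ℕ) (hC : ∀ p ∈ S, Bd (log p) (C p)) :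
    ∀ (J : Finset ι), (∀ T ⊆ J, (∀ r ∈ T, ∀ r' ∈ T, ∀ p ∈ S, e r p = e r' p) →
      ∑ r ∈ T, g r ≤ B) →
    ∑ r ∈ J, g r * ∏ p ∈ S, G (e r p * log p - f p) ≤ B * ∏ p ∈ S, C p := by
  classical
  induction S using Finset.induction_on with
  | empty =>
    intro J hB
    simpa using hB J (Subset.refl _) (by simp)
  | insert p S hp ih =>
    intro J hB
    have hB0 : 0 ≤ B := by simpa using hB ∅ (empty_subset _) (by simp)
    have ih' := ih fun q hq => hC q (mem_insert_of_mem hq)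
    have hP0 : 0 ≤ ∏ q ∈ S, C q :=
      prod_nonneg fun q hq => (hC q (mem_insert_of_mem hq)).nonneg
    have h1 : ∀ v ∈ J.image (fun r => e r p),
        ∑ r ∈ J with e r p = v, g r * ∏ q ∈ insert p S, G (e r q * log q - f q) ≤
        G (v * log p - f p) * (B * ∏ q ∈ S, C q) := by
      intro v _
      have h2 : ∑ r ∈ J with e r p = v, g r * ∏ q ∈ insert p S, G (e r q * log q - f q) =
          G (v * log p - f p) * ∑ r ∈ J with e r p = v, g r * ∏ q ∈ S, G (e r q * log q - f q) := by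
        rw [mul_sum]
        refine sum_congr rfl fun r hr => ?_
        rw [prod_insert hp, (mem_filter.1 hr).2]
        ring
      rw [h2]
      refine mul_le_mul_of_nonneg_left (ih' _ fun T hT hTe => ?_) (G_pos _).le
      refine hB T (hT.trans (filter_subset _ _)) fun r hr r' hr' q hq => ?_
      rcases mem_insert.1 hq with rfl | hq
      · rw [(mem_filter.1 (hT hr)).2, (mem_filter.1 (hT hr')).2]
      · exact hTe r hr r' hr' q hq
    calc ∑ r ∈ J, g r * ∏ q ∈ insert p S, G (e r q * log q - f q)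
        = ∑ v ∈ J.image (fun r => e r p),
            ∑ r ∈ J with e r p = v, g r * ∏ q ∈ insert p S, G (e r q * log q - f q) :=
          (sum_fiberwise_of_maps_to (fun r hr => mem_image_of_mem _ hr) _).symm
      _ ≤ ∑ v ∈ J.image (fun r => e r p), G (v * log p - f p) * (B * ∏ q ∈ S, C q) :=
          sum_le_sum h1
      _ = (∑ v ∈ J.image (fun r => e r p), G (v * log p - f p)) * (B * ∏ q ∈ S, C q) := by
          rw [sum_mul]
      _ ≤ C p * (B * ∏ q ∈ S, C q) :=
          mul_le_mul_of_nonneg_right (hC p (mem_insert_self p S) _ _) (mul_nonneg hB0 hP0)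
      _ = B * ∏ q ∈ insert p S, C q := by
          rw [prod_insert hp]
          ring

/-- At most `w` elements of `J` have equal exponents on `S`. -/
theorem many_primes {ι : Type*} (S : Finset ℕ) (J : Finset ι) (e : ι → ℕ → ℤ) (w : ℕ)
    (hw : ∀ T ⊆ J, (∀ r ∈ T, ∀ r' ∈ T, ∀ p ∈ S, e r p = e r' p) → T.card ≤ w)
    (C : ℕ → ℝ) (hC : ∀ p ∈ S, Bd (log p) (C p)) (f : ℕ → ℝ) :
    ∑ r ∈ J, ∏ p ∈ S, ((cosh (e r p * log p - f p)) ^ 2)⁻¹ ≤ w * ∏ p ∈ S, C p := by
  have := many_aux (fun _ => 1) (fun _ => zero_le_one) (w : ℝ) e C f S hC J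
    (fun T hT hTe => by
      simp only [sum_const, nsmul_eq_mul, mul_one]
      exact_mod_cast hw T hT hTe)
  simpa [G] using this

/-- The version with gaps at `p = 2`. -/
theorem many_primes_gap {ι : Type*} (S : Finset ℕ) (J : Finset ι) (e : ι → ℕ → ℤ) (w : ℕ)
    (hw : ∀ T ⊆ J, (∀ r ∈ T, ∀ r' ∈ T, ∀ p ∈ S, e r p = e r' p) → T.card ≤ w)
    (k : ℕ) (hk : 1 ≤ k)
    (hgap : 2 ∈ S → ∀ r ∈ J, ∀ r' ∈ J, (∀ p ∈ S, p ≠ 2 → e r p = e r' p) → e r 2 ≠ e r' 2 →
      (k : ℤ) ≤ |e r 2 - e r' 2|)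
    (C2 : ℝ) (h1 : 1 ≤ C2) (hC2 : Bd (k * log 2) C2)
    (C : ℕ → ℝ) (hC : ∀ p ∈ S, p ≠ 2 → Bd (log p) (C p)) (f : ℕ → ℝ) :
    ∑ r ∈ J, ∏ p ∈ S, ((cosh (e r p * log p - f p)) ^ 2)⁻¹ ≤
      w * (C2 * ∏ p ∈ S.erase 2, C p) := by
  classical
  by_cases h2 : 2 ∈ S
  · have hS' : ∀ p ∈ S.erase 2, Bd (log p) (C p) := fun p hp =>
      hC p (mem_of_mem_erase hp) (ne_of_mem_erase hp)
    have := many_aux (fun r => G (e r 2 * log 2 - f 2)) (fun r => (G_pos _).le) (w * C2) e C f
      (S.erase 2) hS' J (fun T hT hTe => by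
        have hgapT : ∀ r ∈ T, ∀ r' ∈ T, e r 2 ≠ e r' 2 → (k : ℤ) ≤ |e r 2 - e r' 2| :=
          fun r hr r' hr' hne => hgap h2 r (hT hr) r' (hT hr')
            (fun p hp hp2 => hTe r hr r' hr' p (mem_erase.2 ⟨hp2, hp⟩)) hne
        have hfib : ∀ v ∈ T.image (fun r => e r 2),
            ∑ r ∈ T with e r 2 = v, G (e r 2 * log 2 - f 2) ≤ w * G (v * log 2 - f 2) := by
          intro v _
          have hcard : (T.filter fun r => e r 2 = v).card ≤ w := by
            refine hw _ ((filter_subset _ _).trans hT) fun r hr r' hr' p hp => ?_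
            rw [mem_filter] at hr hr'
            by_cases hp2 : p = 2
            · rw [hp2, hr.2, hr'.2]
            · exact hTe r hr.1 r' hr'.1 p (mem_erase.2 ⟨hp2, hp⟩)
          calc ∑ r ∈ T with e r 2 = v, G (e r 2 * log 2 - f 2)
              = ∑ r ∈ T with e r 2 = v, G (v * log 2 - f 2) := by
                refine sum_congr rfl fun r hr => ?_
                rw [(mem_filter.1 hr).2]
            _ = (T.filter fun r => e r 2 = v).card * G (v * log 2 - f 2) := by
                rw [sum_const, nsmul_eq_mul]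
            _ ≤ _ := mul_le_mul_of_nonneg_right (by exact_mod_cast hcard) (G_pos _).le
        calc ∑ r ∈ T, G (e r 2 * log 2 - f 2)
            = ∑ v ∈ T.image (fun r => e r 2), ∑ r ∈ T with e r 2 = v, G (e r 2 * log 2 - f 2) :=
              (sum_fiberwise_of_maps_to (fun r hr => mem_image_of_mem _ hr) _).symm
          _ ≤ ∑ v ∈ T.image (fun r => e r 2), w * G (v * log 2 - f 2) := sum_le_sum hfib
          _ = w * ∑ v ∈ T.image (fun r => e r 2), G (v * log 2 - f 2) := by rw [mul_sum]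
          _ ≤ w * C2 := by
              refine mul_le_mul_of_nonneg_left ?_ (Nat.cast_nonneg _)
              refine gap_le (log_pos (by norm_num)) hk hC2 _ _ ?_
              intro m hm m' hm' hne
              obtain ⟨r, hr, rfl⟩ := mem_image.1 hm
              obtain ⟨r', hr', rfl⟩ := mem_image.1 hm'
              exact hgapT r hr r' hr' hne)
    rw [mul_assoc] at this
    refine le_trans (le_of_eq (sum_congr rfl fun r _ => ?_)) this
    rw [← mul_prod_erase S _ h2]
    rfl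
  · rw [erase_eq_of_notMem h2]
    refine (many_primes S J e w hw C (fun p hp => hC p hp (fun h => h2 (h ▸ hp))) f).trans ?_
    have hP0 : 0 ≤ ∏ q ∈ S, C q :=
      prod_nonneg fun q hq => (hC q hq (fun h => h2 (h ▸ hq))).nonneg
    refine mul_le_mul_of_nonneg_left ?_ (Nat.cast_nonneg _)
    nlinarith

end Pool.Agent.Work.MP_dc37f8_h15
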