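import Mathlib

/-!
# MP_dc37f8_co, discrete key inequality: the one prime sums

`Bd L C` : for every phase `f` and every finite set `M` of integers
`∑ m ∈ M, (cosh (m * L - f) ^ 2)⁻¹ ≤ C`.
-/

open Finset Real

namespace Pool.Agent.Work.MP_dc37f8_h15

/-- `sech^2` -/
noncomputable def G (u : ℝ) : ℝ := ((cosh u) ^ 2)⁻¹

theorem G_pos (u : ℝ) : 0 < G u := by
  unfold G
  have := cosh_pos u
  positivity

theorem G_anti {u v : ℝ} (h : |u| ≤ |v|) : G v ≤ G u := by
  unfold G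
  have h1 := cosh_pos u
  have h2 : cosh u ≤ cosh v := cosh_le_cosh.2 h
  exact inv_anti₀ (by positivity) (pow_le_pow_left₀ h1.le h2 2)

theorem G_neg (u : ℝ) : G (-u) = G u := by
  unfold G
  rw [cosh_neg]

theorem G_le_one (u : ℝ) : G u ≤ 1 := by
  have h := G_anti (u := 0) (v := u) (by simp)
  simpa [G] using h

/-- bound for all full arithmetic progressions of step `L` -/
def Bd (L C : ℝ) : Prop := ∀ (f : ℝ) (M : Finset ℤ), ∑ m ∈ M, G (m * L - f) ≤ C

theorem Bd.mono {L C C' : ℝ} (h : Bd L C) (hC : C ≤ C') : Bd L C' := fun f M => (h f M).trans hC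

/-- A set of integers with gaps at least `k`. -/
theorem gap_le {L C : ℝ} (hL : 0 < L) {k : ℕ} (hk : 1 ≤ k) (h : Bd (k * L) C) (f : ℝ)
    (M : Finset ℤ) (hM : ∀ m ∈ M, ∀ m' ∈ M, m ≠ m' → (k : ℤ) ≤ |m - m'|) :
    ∑ m ∈ M, G (m * L - f) ≤ C := by
  classical
  set Λ : ℝ := k * L with hΛ
  have hΛ0 : 0 < Λ := by
    have : (0 : ℝ) < k := by exact_mod_cast hk
    positivity
  set u : ℤ → ℝ := fun m => m * L - f with hu
  have hgap : ∀ m ∈ M, ∀ m' ∈ M, m ≠ m' → Λ ≤ |u m - u m'| := by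
    intro m hm m' hm' hne
    have h1 := hM m hm m' hm' hne
    have h2 : u m - u m' = ((m - m' : ℤ) : ℝ) * L := by
      simp only [hu]
      push_cast
      ring
    rw [h2, abs_mul, abs_of_pos hL, hΛ]
    have h3 : (k : ℝ) ≤ |((m - m' : ℤ) : ℝ)| := by
      rw [← Int.cast_abs]
      exact_mod_cast h1
    exact mul_le_mul_of_nonneg_right h3 hL.le
  obtain ⟨c, hc0, hcΛ, hc1, hc2⟩ : ∃ c : ℝ, 0 ≤ c ∧ c ≤ Λ ∧ (∀ m ∈ M, 0 ≤ u m → c ≤ u m) ∧
      (∀ m ∈ M, u m < 0 → u m ≤ c - Λ) := by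
    by_cases hP : (M.filter fun m => 0 ≤ u m).Nonempty
    · obtain ⟨m1, hm1, hmin⟩ := exists_min_image _ u hP
      rw [mem_filter] at hm1
      refine ⟨min Λ (u m1), le_min hΛ0.le hm1.2, min_le_left _ _, fun m hm h0 => ?_, fun m hm h0 => ?_⟩
      · exact (min_le_right _ _).trans (hmin m (mem_filter.2 ⟨hm, h0⟩))
      · rcases le_total Λ (u m1) with h1 | h1
        · rw [min_eq_left h1]
          linarith
        · rw [min_eq_right h1]
          have hne : m1 ≠ m := by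
            rintro rfl
            linarith [hm1.2]
          have h2 := hgap m1 hm1.1 m hm hne
          rw [abs_of_nonneg (by linarith [hm1.2])] at h2
          linarith
    · refine ⟨Λ, hΛ0.le, le_rfl, fun m hm h0 => ?_, fun m hm h0 => by linarith⟩
      exact absurd ⟨m, mem_filter.2 ⟨hm, h0⟩⟩ hP
  let idx : ℤ → ℤ := fun m => if 0 ≤ u m then ⌊(u m - c) / Λ⌋ else ⌈(u m - c) / Λ⌉
  have hpos : ∀ m ∈ M, 0 ≤ u m → 0 ≤ idx m ∧ (idx m : ℝ) * Λ + c ≤ u m ∧
      u m < (idx m : ℝ) * Λ + c + Λ := by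
    intro m hm h0
    have hi : idx m = ⌊(u m - c) / Λ⌋ := if_pos h0
    have h1 := Int.floor_le ((u m - c) / Λ)
    have h2 := Int.lt_floor_add_one ((u m - c) / Λ)
    rw [← hi] at h1 h2
    rw [le_div_iff₀ hΛ0] at h1
    rw [div_lt_iff₀ hΛ0] at h2
    refine ⟨?_, by linarith, by linarith⟩
    rw [hi]
    exact Int.floor_nonneg.2 (div_nonneg (by linarith [hc1 m hm h0]) hΛ0.le)
  have hneg : ∀ m ∈ M, u m < 0 → idx m ≤ -1 ∧ u m ≤ (idx m : ℝ) * Λ + c ∧
      (idx m : ℝ) * Λ + c - Λ < u m := by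
    intro m hm h0
    have hi : idx m = ⌈(u m - c) / Λ⌉ := if_neg (not_le.2 h0)
    have h1 := Int.le_ceil ((u m - c) / Λ)
    have h2 := Int.ceil_lt_add_one ((u m - c) / Λ)
    rw [← hi] at h1 h2
    rw [div_le_iff₀ hΛ0] at h1
    have h3 : (idx m : ℝ) - 1 < (u m - c) / Λ := by linarith
    rw [lt_div_iff₀ hΛ0] at h3
    refine ⟨?_, by linarith, by linarith⟩
    rw [hi]
    refine Int.ceil_le.2 ?_
    rw [div_le_iff₀ hΛ0]
    push_cast
    linarith [hc2 m hm h0]
  have hinj : Set.InjOn idx M := by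
    intro m hm m' hm' he
    by_contra hne
    have hg := hgap m hm m' hm' hne
    have he' : (idx m : ℝ) = idx m' := by exact_mod_cast he
    rcases le_or_gt 0 (u m) with h0 | h0 <;> rcases le_or_gt 0 (u m') with h0' | h0'
    · obtain ⟨_, a1, a2⟩ := hpos m hm h0
      obtain ⟨_, b1, b2⟩ := hpos m' hm' h0'
      rw [he'] at a1 a2
      have : |u m - u m'| < Λ := abs_lt.2 ⟨by linarith, by linarith⟩
      linarith
    · have a := (hpos m hm h0).1
      have b := (hneg m' hm' h0').1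
      omega
    · have a := (hneg m hm h0).1
      have b := (hpos m' hm' h0').1
      omega
    · obtain ⟨_, a1, a2⟩ := hneg m hm h0
      obtain ⟨_, b1, b2⟩ := hneg m' hm' h0'
      rw [he'] at a1 a2
      have : |u m - u m'| < Λ := abs_lt.2 ⟨by linarith, by linarith⟩
      linarith
  calc ∑ m ∈ M, G (m * L - f) ≤ ∑ m ∈ M, G ((idx m : ℝ) * Λ - (-c)) := by
        refine sum_le_sum fun m hm => G_anti ?_
        show |(idx m : ℝ) * Λ - (-c)| ≤ |u m|
        rcases le_or_gt 0 (u m) with h0 | h0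
        · obtain ⟨a0, a1, a2⟩ := hpos m hm h0
          have a0' : (0 : ℝ) ≤ idx m := by exact_mod_cast a0
          have : 0 ≤ (idx m : ℝ) * Λ := mul_nonneg a0' hΛ0.le
          rw [abs_of_nonneg (by linarith), abs_of_nonneg h0]
          linarith
        · obtain ⟨a0, a1, a2⟩ := hneg m hm h0
          have a0' : (idx m : ℝ) ≤ -1 := by exact_mod_cast a0
          have : (idx m : ℝ) * Λ ≤ -1 * Λ := mul_le_mul_of_nonneg_right a0' hΛ0.le
          rw [abs_of_nonpos (by linarith), abs_of_neg h0]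
          linarith
    _ = ∑ n ∈ M.image idx, G ((n : ℝ) * Λ - (-c)) :=
        (sum_image (f := fun n : ℤ => G ((n : ℝ) * Λ - (-c))) hinj).symm
    _ ≤ C := h _ _

/-- the two terms at distance `log q / 2` of the centre -/
noncomputable def P (q w : ℝ) : ℝ := 4 * q * ((q ^ 2 + 1) * w + 4 * q) / (q * w + q ^ 2 + 1) ^ 2

theorem G_eq (u : ℝ) : G u = 4 / (exp (2 * u) + (exp (2 * u))⁻¹ + 2) := by
  unfold G
  rw [cosh_eq, ← exp_neg]
  have h1 : exp (2 * u) = exp u * exp u := by rw [← exp_add]; ring_nf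
  have h2 : exp (-(2 * u)) = exp (-u) * exp (-u) := by rw [← exp_add]; ring_nf
  have h3 : exp u * exp (-u) = 1 := by rw [← exp_add]; simp
  rw [h1, h2]
  have h4 : exp u * exp u + exp (-u) * exp (-u) + 2 = (exp u + exp (-u)) ^ 2 := by
    linear_combination (-2) * h3
  rw [h4]
  have : 0 < exp u + exp (-u) := by positivity
  field_simp
  norm_num

theorem pair_eq (t u : ℝ) : G (t + u) + G (-t + u) =
    P (exp (2 * t)) (exp (2 * u) + (exp (2 * u))⁻¹) := by
  rw [G_eq, G_eq]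
  have h1 : exp (2 * (t + u)) = exp (2 * t) * exp (2 * u) := by rw [← exp_add]; ring_nf
  have h2 : exp (2 * (-t + u)) = (exp (2 * t))⁻¹ * exp (2 * u) := by
    rw [← exp_neg, ← exp_add]; ring_nf
  rw [h1, h2]
  have hq : 0 < exp (2 * t) := exp_pos _
  have hy : 0 < exp (2 * u) := exp_pos _
  generalize exp (2 * t) = q at hq ⊢
  generalize exp (2 * u) = y at hy ⊢
  unfold P
  have e1 : q * y + (q * y)⁻¹ + 2 = (q * y + 1) ^ 2 / (q * y) := by field_simp; ring
  have e2 : q⁻¹ * y + (q⁻¹ * y)⁻¹ + 2 = (y + q) ^ 2 / (q * y) := by field_simp; ring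
  have e3 : q * (y + y⁻¹) + q ^ 2 + 1 = (q * y + 1) * (y + q) / y := by field_simp; ring
  rw [e1, e2, e3]
  have : 0 < q * y + 1 := by positivity
  have : 0 < y + q := by positivity
  field_simp
  ring

theorem P_le {q w : ℝ} (hq : 0 < q) (hw : 2 ≤ w) : P q w ≤ 4 * w / q := by
  unfold P
  have h1 : 0 < q * w + q ^ 2 + 1 := by positivity
  rw [div_le_div_iff₀ (by positivity) hq]
  have h2 : 4 ≤ w ^ 2 := by nlinarith
  have h3 : 0 ≤ q * (q ^ 2 + 1) := by positivity
  have h4 : 0 ≤ w := by linarith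
  have key : w * (q * w + q ^ 2 + 1) ^ 2 - q ^ 2 * ((q ^ 2 + 1) * w + 4 * q) =
      w * (q ^ 2 * w ^ 2) + w * (q ^ 2 + 1) + (2 * (w ^ 2 - 4) * (q * (q ^ 2 + 1))) +
        4 * q ^ 3 + 8 * q := by ring
  have : 0 ≤ w * (q * w + q ^ 2 + 1) ^ 2 - q ^ 2 * ((q ^ 2 + 1) * w + 4 * q) := by
    rw [key]
    have : 0 ≤ 2 * (w ^ 2 - 4) * (q * (q ^ 2 + 1)) := by
      apply mul_nonneg _ h3
      linarith
    positivity
  nlinarith [this]

theorem P_nonneg {q w : ℝ} (hq : 0 < q) (hw : 2 ≤ w) : 0 ≤ P q w := by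
  unfold P
  positivity

/-- sums over finite sets of integers, by distance to 0 -/
theorem sum_int_le (g : ℤ → ℝ) (hg : ∀ m, 0 ≤ g m) (N : Finset ℤ) :
    ∃ n : ℕ, ∀ K, n ≤ K → ∑ m ∈ N, g m ≤ g 0 + ∑ j ∈ range K, (g (j + 1) + g (-(j + 1))) := by
  classical
  refine ⟨N.sup Int.natAbs, fun K hK => ?_⟩
  have hN : ∀ m ∈ N, m.natAbs ≤ K := fun m hm => (le_sup (f := Int.natAbs) hm).trans hK
  have hsub : N ⊆ insert 0 ((range K).image (fun j : ℕ => ((j : ℤ) + 1)) ∪
      (range K).image (fun j : ℕ => (-((j : ℤ) + 1)))) := by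
    intro m hm
    have := hN m hm
    rw [mem_insert, mem_union, mem_image, mem_image]
    rcases lt_trichotomy m 0 with h | h | h
    · right; right
      exact ⟨m.natAbs - 1, mem_range.2 (by omega), by omega⟩
    · left; exact h
    · right; left
      exact ⟨m.natAbs - 1, mem_range.2 (by omega), by omega⟩
  refine (sum_le_sum_of_subset_of_nonneg hsub fun m _ _ => hg m).trans (le_of_eq ?_)
  rw [sum_insert, sum_union, sum_image, sum_image, sum_add_distrib]
  · intro a _ b _ h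
    simpa using h
  · intro a _ b _ h
    simpa using h
  · rw [disjoint_left]
    intro m h1 h2
    obtain ⟨a, _, rfl⟩ := mem_image.1 h1
    obtain ⟨b, _, h3⟩ := mem_image.1 h2
    omega
  · rw [mem_union, mem_image, mem_image]
    rintro (⟨a, _, h⟩ | ⟨a, _, h⟩) <;> omega

theorem geom_le {b : ℝ} (hb : 1 < b) (n : ℕ) :
    ∑ k ∈ range n, (b ^ (2 * (k + 1)))⁻¹ ≤ (b ^ 2 - 1)⁻¹ := by
  have h0 : 0 < b := by linarith
  have h1 : 0 < b ^ 2 - 1 := by nlinarith
  have key : ∑ k ∈ range n, (b ^ (2 * (k + 1)))⁻¹ = (1 - (b ^ (2 * n))⁻¹) * (b ^ 2 - 1)⁻¹ := by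
    induction n with
    | zero => simp
    | succ n ih =>
      rw [sum_range_succ, ih]
      have : b ^ (2 * (n + 1)) = b ^ (2 * n) * b ^ 2 := by ring
      rw [this]
      field_simp
      ring
  rw [key]
  have h2 : 0 < (b ^ (2 * n))⁻¹ := by positivity
  have h3 : 0 < (b ^ 2 - 1)⁻¹ := by positivity
  nlinarith

/-- The master bound: `K` pairs explicitly, the tail by a geometric series. -/
theorem bd_master {b : ℝ} (hb : 1 < b) (K : ℕ) (C : ℝ)
    (hC : ∀ w : ℝ, 2 ≤ w → w ≤ b + b⁻¹ →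
      4 / (w + 2) + ∑ k ∈ range K, P (b ^ (2 * (k + 1))) w + 4 * w * (b ^ (2 * K))⁻¹ * (b ^ 2 - 1)⁻¹
        ≤ C) : Bd (log b) C := by
  intro f M
  have hb0 : 0 < b := by linarith
  set L := log b with hLdef
  have hL : 0 < L := log_pos hb
  have hbL : exp L = b := exp_log hb0
  set m0 := round (f / L) with hm0
  set u0 : ℝ := m0 * L - f with hu0
  have hu : |2 * u0| ≤ L := by
    have h1 := abs_sub_round (f / L)
    rw [← hm0] at h1
    have h2 : 2 * u0 = -(2 * L) * (f / L - m0) := by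
      rw [hu0]
      field_simp
      ring
    rw [h2, abs_mul, abs_neg, abs_of_pos (by linarith)]
    nlinarith
  set w : ℝ := exp (2 * u0) + (exp (2 * u0))⁻¹ with hw
  have hw2 : 2 ≤ w := by
    have h1 : 0 < exp (2 * u0) := exp_pos _
    rw [hw]
    have h2 : exp (2 * u0) + (exp (2 * u0))⁻¹ - 2 = (exp (2 * u0) - 1) ^ 2 / exp (2 * u0) := by
      field_simp
      ring
    have h3 : 0 ≤ (exp (2 * u0) - 1) ^ 2 / exp (2 * u0) := by positivity
    linarith
  have hwb : w ≤ b + b⁻¹ := by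
    have h1 : cosh (2 * u0) ≤ cosh L := by
      rw [cosh_le_cosh, abs_of_pos hL]
      exact hu
    rw [cosh_eq, cosh_eq, exp_neg, exp_neg, hbL] at h1
    rw [hw]
    linarith
  -- shift
  let g : ℤ → ℝ := fun k => G (k * L + u0)
  have hsum : ∑ m ∈ M, G (m * L - f) = ∑ k ∈ M.image (fun m => m - m0), g k := by
    rw [sum_image (by intro a _ b _ h; simpa using h)]
    refine sum_congr rfl fun m _ => ?_
    simp only [g, hu0]
    congr 1
    push_cast
    ring
  obtain ⟨n, hn⟩ := sum_int_le g (fun m => (G_pos _).le) (M.image (fun m => m - m0))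
  have h1 := hn (K + n) (by omega)
  have hpair : ∀ j : ℕ, g (j + 1) + g (-(j + 1)) = P (b ^ (2 * (j + 1))) w := by
    intro j
    simp only [g]
    have e1 : (((j : ℤ) + 1 : ℤ) : ℝ) * L + u0 = ((j : ℝ) + 1) * L + u0 := by push_cast; ring
    have e2 : ((-((j : ℤ) + 1) : ℤ) : ℝ) * L + u0 = -(((j : ℝ) + 1) * L) + u0 := by push_cast; ring
    rw [e1, e2, pair_eq, ← hw]
    congr 1
    rw [← hbL, ← exp_nat_mul]
    congr 1
    push_cast
    ring
  have h0 : g 0 = 4 / (w + 2) := by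
    simp only [g]
    rw [Int.cast_zero, zero_mul, zero_add, G_eq, ← hw]
  rw [hsum]
  refine h1.trans (le_trans ?_ (hC w hw2 hwb))
  rw [h0, sum_congr rfl fun j _ => hpair j, sum_range_add, ← add_assoc]
  gcongr
  calc ∑ x ∈ range n, P (b ^ (2 * (K + x + 1))) w
      ≤ ∑ x ∈ range n, 4 * w * (b ^ (2 * K))⁻¹ * (b ^ (2 * (x + 1)))⁻¹ := by
        refine sum_le_sum fun x _ => ?_
        refine (P_le (by positivity) hw2).trans (le_of_eq ?_)
        rw [show 2 * (K + x + 1) = 2 * K + 2 * (x + 1) by ring, pow_add]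
        field_simp
    _ = 4 * w * (b ^ (2 * K))⁻¹ * ∑ x ∈ range n, (b ^ (2 * (x + 1)))⁻¹ := by rw [mul_sum]
    _ ≤ _ := mul_le_mul_of_nonneg_left (geom_le hb n) (by positivity)

end Pool.Agent.Work.MP_dc37f8_h15
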